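import Pool.Agent.Y571.UB.Stm

set_option autoImplicit false

/-!
Project UB (helper571), part ASY (helper813): the asymptotic estimate.
-/

open Finset Filter Topology

namespace Pool.Agent.Y813.UB

theorem asy : Pool.Agent.Y571.UB.S_ASY := by
  intro L κ ε hε hε1 hκ hx
  have hlog : Tendsto (fun j => Real.log (κ j)) atTop atTop := Real.tendsto_log_atTop.comp hκ
  have hLt : Tendsto L atTop atTop := by
    refine tendsto_atTop_mono' _ ?_ hx
    filter_upwards [hlog.eventually_ge_atTop 12, hx.eventually_ge_atTop 1] with j h1 h2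
    have h3 : 0 < L j := by
      have := (le_div_iff₀ (by linarith : 0 < Real.log (κ j))).1 h2
      linarith
    rw [div_le_iff₀ (by linarith)]
    nlinarith
  have hlim : Tendsto (fun j => Real.exp (-(ε * L j))) atTop (𝓝 0) :=
    Real.tendsto_exp_neg_atTop_nhds_zero.comp (hLt.const_mul_atTop hε)
  refine squeeze_zero' ?_ ?_ hlim
  · filter_upwards [hLt.eventually_gt_atTop 0, hκ.eventually_gt_atTop 0] with j h1 h2
    positivity
  · filter_upwards [hlog.eventually_ge_atTop 12, hx.eventually_ge_atTop 1,
      hκ.eventually_gt_atTop 0] with j h1 h2 h3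
    set l := Real.log (κ j) with hl
    have hl0 : 0 < l := by linarith
    set x := L j / l with hxd
    have hL : L j = x * l := by rw [hxd]; field_simp
    have hx0 : 0 < x := by linarith
    set N := ⌈(1 + ε) * x⌉₊ with hN
    have hN1 : (N : ℝ) ≤ 3 * x := by
      have h4 := Nat.ceil_lt_add_one (show 0 ≤ (1 + ε) * x by positivity)
      nlinarith
    have hN2 : (1 + ε) * x ≤ N := Nat.le_ceil _
    have hexp : κ j = Real.exp l := (Real.exp_log h3).symm
    have he : Real.exp 1 ≤ 3 := by
      have := Real.exp_one_lt_d9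
      linarith
    have hb : Real.exp 1 * (N : ℝ) / (κ j * L j) ≤ (κ j)⁻¹ := by
      rw [div_le_iff₀ (by rw [hL]; positivity), hL, ← mul_assoc, inv_mul_cancel₀ h3.ne', one_mul]
      have h5 : Real.exp 1 * N ≤ 3 * (3 * x) :=
        mul_le_mul he hN1 (by positivity) (by norm_num)
      nlinarith
    have hb0 : 0 ≤ Real.exp 1 * (N : ℝ) / (κ j * L j) := by
      rw [hL]; positivity
    have hpow : (Real.exp 1 * (N : ℝ) / (κ j * L j)) ^ N ≤ Real.exp (-((1 + ε) * L j)) := by
      refine (pow_le_pow_left₀ hb0 hb N).trans ?_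
      rw [hexp, ← Real.exp_neg, ← Real.exp_nat_mul, Real.exp_le_exp, hL]
      nlinarith
    calc Real.exp (L j) * (Real.exp 1 * (N : ℝ) / (κ j * L j)) ^ N
        ≤ Real.exp (L j) * Real.exp (-((1 + ε) * L j)) :=
          mul_le_mul_of_nonneg_left hpow (Real.exp_pos _).le
      _ = Real.exp (-(ε * L j)) := by
          rw [← Real.exp_add]
          congr 1
          ring

end Pool.Agent.Y813.UB
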